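import Pool.Agent.H3.RF.Lib

/-!
# MP_609556_an, module PAST: at earlier times the derivatives are bounded by `p`
-/

open MeasureTheory Set Filter Topology Metric
open Pool.Agent.H29.TF (hk P)
open Pool.Agent.H91.RD Pool.Agent.H91.RF

namespace Pool.Agent.H37.RF

/-- comparison of heat kernels with different centres and times -/
theorem hk_comp {N : ℕ} {a b ρ : ℝ} (ha : 0 < a) (hab : 2 * a ≤ b) {x y : E N}
    (hxy : dist y x ≤ ρ) (z : E N) :
    hk a (y - z) ≤ ((b / a) ^ ((Module.finrank ℝ (E N) : ℝ) / 2) * Real.exp (ρ ^ 2 / (2 * b))) *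
      hk b (x - z) := by
  have hb : 0 < b := by linarith
  have hd : ‖x - z‖ ≤ ‖y - z‖ + ρ := by
    have h1 : ‖x - z‖ ≤ ‖y - z‖ + ‖x - y‖ := by
      have : x - z = (y - z) + (x - y) := by abel
      rw [this]
      exact norm_add_le _ _
    rw [dist_eq_norm, ← norm_neg, neg_sub] at hxy
    linarith
  have h1 : (4 * Real.pi * a) ^ (-(Module.finrank ℝ (E N) : ℝ) / 2) =
      (b / a) ^ ((Module.finrank ℝ (E N) : ℝ) / 2) *
        (4 * Real.pi * b) ^ (-(Module.finrank ℝ (E N) : ℝ) / 2) := by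
    have e1 : 4 * Real.pi * b = (b / a) * (4 * Real.pi * a) := by
      field_simp
    have hba : 0 < b / a := by positivity
    rw [e1, Real.mul_rpow (x := b / a) hba.le (by positivity), ← mul_assoc,
      ← Real.rpow_add hba]
    have e2 : (Module.finrank ℝ (E N) : ℝ) / 2 + -(Module.finrank ℝ (E N) : ℝ) / 2 = 0 := by ring
    rw [e2, Real.rpow_zero, one_mul]
  have h2 : Real.exp (-‖y - z‖ ^ 2 / (4 * a)) ≤
      Real.exp (ρ ^ 2 / (2 * b)) * Real.exp (-‖x - z‖ ^ 2 / (4 * b)) := by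
    rw [← Real.exp_add]
    apply Real.exp_le_exp.2
    have h3 : ‖x - z‖ ^ 2 ≤ 2 * ‖y - z‖ ^ 2 + 2 * ρ ^ 2 := by
      have h4 : ‖x - z‖ ^ 2 ≤ (‖y - z‖ + ρ) ^ 2 :=
        pow_le_pow_left₀ (norm_nonneg _) hd 2
      nlinarith [sq_nonneg (‖y - z‖ - ρ)]
    have h5 : ‖y - z‖ ^ 2 / (2 * b) ≤ ‖y - z‖ ^ 2 / (4 * a) :=
      div_le_div_of_nonneg_left (sq_nonneg _) (by positivity) (by linarith)
    have h6 : ‖x - z‖ ^ 2 / (4 * b) ≤ ‖y - z‖ ^ 2 / (2 * b) + ρ ^ 2 / (2 * b) := by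
      rw [← add_div, div_le_div_iff₀ (by positivity) (by positivity)]
      nlinarith
    rw [neg_div, neg_div]
    linarith
  unfold hk
  rw [h1]
  have h7 : 0 ≤ (b / a) ^ ((Module.finrank ℝ (E N) : ℝ) / 2) *
      (4 * Real.pi * b) ^ (-(Module.finrank ℝ (E N) : ℝ) / 2) := by positivity
  calc (b / a) ^ ((Module.finrank ℝ (E N) : ℝ) / 2) *
        (4 * Real.pi * b) ^ (-(Module.finrank ℝ (E N) : ℝ) / 2) *
        Real.exp (-‖y - z‖ ^ 2 / (4 * a))
      ≤ (b / a) ^ ((Module.finrank ℝ (E N) : ℝ) / 2) *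
        (4 * Real.pi * b) ^ (-(Module.finrank ℝ (E N) : ℝ) / 2) *
        (Real.exp (ρ ^ 2 / (2 * b)) * Real.exp (-‖x - z‖ ^ 2 / (4 * b))) :=
        mul_le_mul_of_nonneg_left h2 h7
    _ = _ := by ring

section

variable {N : ℕ} {f : ℝ → ℝ} {K : ℝ} {U : Set (E N)} {u : ℝ → E N → ℝ}

theorem cont_fd (hS : Stg f K U u) {t : ℝ} (ht : 0 < t) :
    Continuous (fun x => fderiv ℝ (u t) x) :=
  (hS.sol.sol.c2 t ht).continuous_fderiv (by norm_num)

theorem cont_dx (hS : Stg f K U u) {t : ℝ} (ht : 0 < t) (h : E N) :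
    Continuous (fun x => dx u h t x) :=
  (cont_fd hS ht).clm_apply continuous_const

theorem cont_gr (hS : Stg f K U u) {t : ℝ} (ht : 0 < t) :
    Continuous (fun x => gr u t x) := (cont_fd hS ht).norm

theorem abs_dx_le (h : E N) (t : ℝ) (x : E N) : |dx u h t x| ≤ gr u t x * ‖h‖ := by
  have := (fderiv ℝ (u t) x).le_opNorm h
  rwa [Real.norm_eq_abs] at this

theorem gr_nonneg (t : ℝ) (x : E N) : 0 ≤ gr u t x := norm_nonneg _

theorem NDir.mono {η η' : ℝ} (h : η ≤ η') {x e : E N} (hd : NDir U η x e) : NDir U η' x e := by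
  obtain ⟨h1, ξ, e0, h2, h3⟩ := hd
  exact ⟨h1, ξ, e0, h2, h3.trans h⟩

/-- step (a) -/
theorem stepA (hKER : T_KER) (hKREP : T_KREP) (hGEOK : T_GEOK) (hLINU : T_LINU) (hNSUP : T_NSUP)
    {cc C0 C9 η0 : ℝ} (hS : Stg f K U u) (hc : 0 < cc) (hF : Frm U u cc C0 C9 η0) {S : ℝ}
    (hS0 : 0 < S) :
    ∃ η > 0, ∃ T > 0, ∀ t ≥ T, ∀ x e, NDir U η x e → |infDist x U - cc * t| ≤ η * t →
      0 ≤ -dx u e t x ∧
      (∫ z, hk S (x - z) * gr u (t - S) z) ≤ 3 * C0 * Real.exp (K * S) * -dx u e t x := by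
  obtain ⟨hPt, -, hLin, CL, hCL⟩ := hLINU N f K U u hS.reac hS.lip hS.sol
  obtain ⟨ρg, hρg, Tg, hTg, hG⟩ := hGEOK N U (cc / 2) hS.condC hS.ne (by positivity) η0 hF.hη0
  obtain ⟨Tp, hTp, hP⟩ := hF.pos
  obtain ⟨Tl, hTl, hL⟩ := hF.low (1 / 2) (by norm_num)
  have hK := hPt.K0
  have hη0 := hF.hη0
  have hC0 := hF.hC0
  have hC9 := hF.hC9
  have hCL0 : 0 ≤ CL := (gr_nonneg 1 0).trans (hCL 1 le_rfl (0 : E N)).1
  obtain ⟨ρ1, hρ1, hρ1g, hρ1η⟩ : ∃ ρ1 : ℝ, 0 < ρ1 ∧ ρ1 ≤ ρg ∧ ρ1 ≤ η0 / 4 :=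
    ⟨min ρg (η0 / 4), lt_min hρg (by positivity), min_le_left _ _, min_le_right _ _⟩
  obtain ⟨δ, hδ, hδ1, hδ2⟩ : ∃ δ : ℝ, 0 < δ ∧ δ ≤ 1 ∧ δ ≤ ρ1 ^ 2 / (16 * (K + 3)) :=
    ⟨min 1 (ρ1 ^ 2 / (16 * (K + 3))), lt_min one_pos (by positivity), min_le_left _ _,
      min_le_right _ _⟩
  have hδ3 : 16 * δ * (K * δ + 2 + 1) ≤ ρ1 ^ 2 := by
    rw [le_div_iff₀ (by positivity)] at hδ2
    have h1 : K * δ ≤ K := by nlinarith
    have h2 : 16 * δ * (K * δ + 2 + 1) ≤ 16 * δ * (K + 3) :=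
      mul_le_mul_of_nonneg_left (by linarith) (by positivity)
    linarith
  obtain ⟨Tn, hTn, hN⟩ := hNSUP N K (CL + 1) ρ1 δ 2 hK (by positivity) hρ1 hδ (by norm_num) hδ3
  obtain ⟨η, hη, hη1, hη2, hη3, hη4⟩ : ∃ η : ℝ, 0 < η ∧ η ≤ ρg ∧ η ≤ η0 / 4 ∧ η ≤ 1 / (2 * C9) ∧
      η ≤ cc / 2 :=
    ⟨min (min ρg (η0 / 4)) (min (1 / (2 * C9)) (cc / 2)),
      lt_min (lt_min hρg (by positivity)) (lt_min (by positivity) (by positivity)),
      (min_le_left _ _).trans (min_le_left _ _), (min_le_left _ _).trans (min_le_right _ _),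
      (min_le_right _ _).trans (min_le_left _ _), (min_le_right _ _).trans (min_le_right _ _)⟩
  obtain ⟨T, hTdef⟩ : ∃ T : ℝ, T = Tg + (Tp + S) + Tl + Tn + S / δ + (S + 1) +
      2 * (cc + η0) * S / η0 := ⟨_, rfl⟩
  have hq1 : 0 < S / δ := by positivity
  have hq2 : 0 < 2 * (cc + η0) * S / η0 := by positivity
  refine ⟨η, hη, T, by rw [hTdef]; positivity, fun t ht x e hd hx => ?_⟩
  have hTgt : Tg ≤ t := by linarith
  have hTpt : Tp ≤ t - S := by linarith
  have hTlt : Tl ≤ t := by linarith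
  have hTnt : Tn ≤ t := by linarith
  have hδt : S ≤ δ * t := by
    have : S / δ ≤ t := by linarith
    rw [div_le_iff₀ hδ] at this
    linarith
  have h1t : 1 ≤ t - S := by linarith
  have ht0 : 0 < t := by linarith
  have hs0 : 0 < t - S := by linarith
  have hccη : (cc + η0) * S ≤ η0 / 2 * t := by
    have : 2 * (cc + η0) * S / η0 ≤ t := by linarith
    rw [div_le_iff₀ hη0] at this
    linarith
  have he1 : ‖e‖ = 1 := hd.1
  -- lower bound of p
  have hxη0 : |infDist x U - cc * t| ≤ η0 * t :=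
    hx.trans (mul_le_mul_of_nonneg_right (by linarith) ht0.le)
  have hlow : Real.exp (-t) ≤ -dx u e t x := by
    refine le_trans ?_ (hL t hTlt x e (NDir.mono (by linarith) hd) hxη0)
    apply Real.exp_le_exp.2
    have h1 : C9 * |infDist x U - cc * t| ≤ C9 * (1 / (2 * C9) * t) :=
      mul_le_mul_of_nonneg_left (hx.trans (mul_le_mul_of_nonneg_right hη3 ht0.le)) (by linarith)
    have h2 : C9 * (1 / (2 * C9) * t) = t / 2 := by field_simp
    linarith
  have hlow2 : Real.exp (-(2 * t)) ≤ -dx u e t x :=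
    (Real.exp_le_exp.2 (by linarith)).trans hlow
  have hp0 : 0 ≤ -dx u e t x := (Real.exp_pos _).le.trans hlow
  refine ⟨hp0, ?_⟩
  have hinf : cc / 2 * t ≤ infDist x U := by
    have h1 := abs_le.1 hx
    have h2 : η * t ≤ cc / 2 * t := mul_le_mul_of_nonneg_right hη4 ht0.le
    linarith [h1.1]
  -- the functions
  obtain ⟨s, hs⟩ : ∃ s, s = t - S := ⟨_, rfl⟩
  rw [← hs] at h1t hs0 hTpt ⊢
  have hts : t - s = S := by rw [hs]; ring
  have hst : s < t := by rw [hs]; linarith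
  have hGb : ∀ z, gr u s z ≤ CL := fun z => (hCL s h1t z).1
  have hqb : ∀ z, |-dx u e s z| ≤ CL := fun z => by
    rw [abs_neg]
    have := abs_dx_le (u := u) e s z
    rw [he1, mul_one] at this
    exact this.trans (hGb z)
  have hGm : Measurable (gr u s) := (cont_gr hS hs0).measurable
  have hqm : Measurable (fun z => -dx u e s z) := (cont_dx hS hs0 e).neg.measurable
  have hBm : MeasurableSet (closedBall x (ρ1 * t))ᶜ := measurableSet_closedBall.compl
  obtain ⟨g1, hg1⟩ : ∃ g1, g1 = (closedBall x (ρ1 * t))ᶜ.indicator (fun z => -dx u e s z) :=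
    ⟨_, rfl⟩
  obtain ⟨g2, hg2⟩ : ∃ g2, g2 = (closedBall x (ρ1 * t))ᶜ.indicator (gr u s) := ⟨_, rfl⟩
  have hg1m : Measurable g1 := by rw [hg1]; exact hqm.indicator hBm
  have hg2m : Measurable g2 := by rw [hg2]; exact hGm.indicator hBm
  have hg1b : ∀ y, |g1 y| ≤ CL + 1 := fun y => by
    rw [hg1]
    by_cases hy : y ∈ (closedBall x (ρ1 * t))ᶜ
    · rw [indicator_of_mem hy]; linarith [hqb y]
    · rw [indicator_of_notMem hy, abs_zero]; linarith
  have hg2b : ∀ y, |g2 y| ≤ CL + 1 := fun y => by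
    rw [hg2]
    by_cases hy : y ∈ (closedBall x (ρ1 * t))ᶜ
    · rw [indicator_of_mem hy, abs_of_nonneg (gr_nonneg _ _)]; linarith [hGb y]
    · rw [indicator_of_notMem hy, abs_zero]; linarith
  have hn1 : |∫ y, gk (pot f u) t x s y * g1 y| ≤ Real.exp (-(2 * t)) := by
    have := hN t hTnt (pot f u) g1 t S x hPt hg1m hg1b hS0 hδt (fun y hy => by
      rw [hg1]
      exact indicator_of_notMem (by simpa using hy) _)
    rwa [← hs] at this
  have hn2 : |∫ y, gk (pot f u) t x s y * g2 y| ≤ Real.exp (-(2 * t)) := by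
    have := hN t hTnt (pot f u) g2 t S x hPt hg2m hg2b hS0 hδt (fun y hy => by
      rw [hg2]
      exact indicator_of_notMem (by simpa using hy) _)
    rwa [← hs] at this
  have hrep : -dx u e t x = ∫ y, gk (pot f u) t x s y * -dx u e s y := by
    have := hKREP N K s t (pot f u) (dx u e) hPt ((hLin s t hs0 hst).1 e) s t le_rfl hst le_rfl x
    rw [this, ← integral_neg]
    congr 1
    funext y
    ring
  have hpt : ∀ y, gr u s y ≤ C0 * (-dx u e s y - g1 y) + g2 y := by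
    intro y
    by_cases hy : y ∈ (closedBall x (ρ1 * t))ᶜ
    · rw [hg1, hg2, indicator_of_mem hy, indicator_of_mem hy]
      simp
    · rw [hg1, hg2, indicator_of_notMem hy, indicator_of_notMem hy, sub_zero, add_zero]
      have hy' : dist y x ≤ ρ1 * t := by simpa using hy
      have hnd : NDir U η0 y e := hG t hTgt x e (NDir.mono hη1 hd) hinf y
        (hy'.trans (mul_le_mul_of_nonneg_right hρ1g ht0.le))
      refine (hP s hTpt y e hnd ?_).2
      have h1 : |infDist y U - infDist x U| ≤ dist y x := by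
        rw [abs_le]
        constructor
        · have := infDist_le_infDist_add_dist (s := U) (x := x) (y := y)
          rw [dist_comm] at this
          linarith
        · have := infDist_le_infDist_add_dist (s := U) (x := y) (y := x)
          linarith
      have h2 : |infDist y U - cc * s| ≤ |infDist y U - infDist x U| +
          |infDist x U - cc * t| + cc * S := by
        have e1 : infDist y U - cc * s = (infDist y U - infDist x U) +
            (infDist x U - cc * t) + cc * S := by rw [hs]; ring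
        rw [e1]
        refine (abs_add_le _ _).trans (add_le_add (abs_add_le _ _) ?_)
        rw [abs_of_nonneg (by positivity)]
      have h3 : ρ1 * t ≤ η0 / 4 * t := mul_le_mul_of_nonneg_right hρ1η ht0.le
      have h4 : η * t ≤ η0 / 4 * t := mul_le_mul_of_nonneg_right hη2 ht0.le
      have h5 : η0 * s = η0 * t - η0 * S := by rw [hs]; ring
      rw [h5]
      nlinarith
  -- integrals
  have hi1 : ∀ {g : E N → ℝ}, Measurable g → (∀ y, |g y| ≤ CL + 1) →
      Integrable (fun y => gk (pot f u) t x s y * g y) := fun hg hb =>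
    Pool.Agent.H3.RF.gk_int hKER hPt hst x hg hb
  have hqb' : ∀ y, |-dx u e s y| ≤ CL + 1 := fun y => (hqb y).trans (by linarith)
  have hGb' : ∀ y, |gr u s y| ≤ CL + 1 := fun y => by
    rw [abs_of_nonneg (gr_nonneg _ _)]; linarith [hGb y]
  have hj1 : Integrable (fun y => C0 * (gk (pot f u) t x s y * -dx u e s y)) :=
    (hi1 hqm hqb').const_mul _
  have hj2 : Integrable (fun y => C0 * (gk (pot f u) t x s y * g1 y)) :=
    (hi1 hg1m hg1b).const_mul _
  have hj3 : Integrable (fun y => C0 * (gk (pot f u) t x s y * -dx u e s y) -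
      C0 * (gk (pot f u) t x s y * g1 y)) := hj1.sub hj2
  have hA : ∫ y, gk (pot f u) t x s y * gr u s y ≤
      C0 * (-dx u e t x + Real.exp (-(2 * t))) + Real.exp (-(2 * t)) := by
    calc ∫ y, gk (pot f u) t x s y * gr u s y
        ≤ ∫ y, (C0 * (gk (pot f u) t x s y * -dx u e s y) -
          C0 * (gk (pot f u) t x s y * g1 y)) + gk (pot f u) t x s y * g2 y := by
          refine integral_mono (hi1 hGm hGb') (hj3.add (hi1 hg2m hg2b)) fun y => ?_
          have h1 := mul_le_mul_of_nonneg_left (hpt y)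
            (Pool.Agent.H3.RF.gk_nonneg hKER hPt hst x y)
          refine h1.trans (le_of_eq ?_)
          ring
      _ = C0 * (∫ y, gk (pot f u) t x s y * -dx u e s y) -
          C0 * (∫ y, gk (pot f u) t x s y * g1 y) + ∫ y, gk (pot f u) t x s y * g2 y := by
          rw [integral_add hj3 (hi1 hg2m hg2b), integral_sub hj1 hj2, integral_const_mul,
            integral_const_mul]
      _ ≤ _ := by
          rw [← hrep]
          have h1 := abs_le.1 hn1
          have h2 := abs_le.1 hn2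
          nlinarith [h1.1, h2.2]
  have hB : ∫ z, hk S (x - z) * gr u s z ≤
      Real.exp (K * S) * ∫ y, gk (pot f u) t x s y * gr u s y := by
    rw [← integral_const_mul]
    refine integral_mono_of_nonneg (ae_of_all _ fun z =>
      mul_nonneg (Pool.Agent.H29.TF.hk_nonneg hS0.le _) (gr_nonneg _ _))
      ((hi1 hGm hGb').const_mul _) (ae_of_all _ fun z => ?_)
    have h1 := ((hKER N K (pot f u) hPt).2.1 s t hst x z).1
    rw [hts] at h1
    have h2 : hk S (x - z) ≤ Real.exp (K * S) * gk (pot f u) t x s z := by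
      have h3 := mul_le_mul_of_nonneg_left h1 (Real.exp_pos (K * S)).le
      rwa [← mul_assoc, ← Real.exp_add, add_neg_cancel, Real.exp_zero, one_mul] at h3
    calc hk S (x - z) * gr u s z ≤ Real.exp (K * S) * gk (pot f u) t x s z * gr u s z :=
          mul_le_mul_of_nonneg_right h2 (gr_nonneg _ _)
      _ = _ := by ring
  refine hB.trans ?_
  have hfin : C0 * (-dx u e t x + Real.exp (-(2 * t))) + Real.exp (-(2 * t)) ≤
      3 * C0 * -dx u e t x := by
    nlinarith
  calc Real.exp (K * S) * ∫ y, gk (pot f u) t x s y * gr u s y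
      ≤ Real.exp (K * S) * (3 * C0 * -dx u e t x) :=
        mul_le_mul_of_nonneg_left (hA.trans hfin) (Real.exp_pos _).le
    _ = _ := by ring

/-- comparison of the averages of the gradient -/
theorem avg_comp (hS : Stg f K U u) {s CL : ℝ} (hs : 0 < s) (hb : ∀ z, gr u s z ≤ CL)
    {a b ρ : ℝ} (ha : 0 < a) (hab : 2 * a ≤ b) {x y : E N} (hxy : dist y x ≤ ρ) :
    ∫ z, hk a (y - z) * gr u s z ≤
      ((b / a) ^ ((Module.finrank ℝ (E N) : ℝ) / 2) * Real.exp (ρ ^ 2 / (2 * b))) *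
        ∫ z, hk b (x - z) * gr u s z := by
  have hb0 : 0 < b := by linarith
  have hint : Integrable (fun z => hk b (x - z) * gr u s z) :=
    Pool.Agent.H29.TF.integrable_hk_mul hb0 (cont_gr hS hs).measurable.aestronglyMeasurable
      (C := CL) (fun z => by rw [abs_of_nonneg (gr_nonneg _ _)]; exact hb z) x
  rw [← integral_const_mul]
  refine integral_mono_of_nonneg (ae_of_all _ fun z =>
      mul_nonneg (Pool.Agent.H29.TF.hk_nonneg ha.le _) (gr_nonneg _ _))
      (hint.const_mul _) (ae_of_all _ fun z => ?_)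
  calc hk a (y - z) * gr u s z
      ≤ ((b / a) ^ ((Module.finrank ℝ (E N) : ℝ) / 2) * Real.exp (ρ ^ 2 / (2 * b))) *
        hk b (x - z) * gr u s z := mul_le_mul_of_nonneg_right (hk_comp ha hab hxy z) (gr_nonneg _ _)
    _ = _ := by ring

/-- gradient bound by the average at an earlier time -/
theorem gr_le_avg (hKER : T_KER) (hKREP : T_KREP) (hLINU : T_LINU) (hS : Stg f K U u) {CL : ℝ}
    (hCL : ∀ t ≥ 1, ∀ x, gr u t x ≤ CL) {s r : ℝ} (hs : 1 ≤ s) (hr : 0 < r) (y : E N) :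
    gr u (s + r) y ≤ Real.exp (K * r) * ∫ z, hk r (y - z) * gr u s z := by
  obtain ⟨hPt, -, hLin, -⟩ := hLINU N f K U u hS.reac hS.lip hS.sol
  have hs0 : 0 < s := by linarith
  have hst : s < s + r := by linarith
  have hGb' : ∀ y, |gr u s y| ≤ CL := fun y => by
    rw [abs_of_nonneg (gr_nonneg _ _)]; exact hCL s hs y
  have hGm : Measurable (gr u s) := (cont_gr hS hs0).measurable
  have hint : Integrable (fun z => hk r (y - z) * gr u s z) :=
    Pool.Agent.H29.TF.integrable_hk_mul hr hGm.aestronglyMeasurable (C := CL) hGb' y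
  have h0 : 0 ≤ ∫ z, hk r (y - z) * gr u s z :=
    integral_nonneg fun z => mul_nonneg (Pool.Agent.H29.TF.hk_nonneg hr.le _) (gr_nonneg _ _)
  refine ContinuousLinearMap.opNorm_le_bound _ (by positivity) fun h => ?_
  have hrep := hKREP N K s (s + r) (pot f u) (dx u h) hPt ((hLin s (s + r) hs0 hst).1 h) s (s + r)
    le_rfl hst le_rfl y
  rw [Real.norm_eq_abs]
  change |dx u h (s + r) y| ≤ _
  rw [hrep]
  have e1 : s + r - s = r := by ring
  calc |∫ z, gk (pot f u) (s + r) y s z * dx u h s z|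
      ≤ ∫ z, |gk (pot f u) (s + r) y s z * dx u h s z| := abs_integral_le_integral_abs
    _ ≤ ∫ z, Real.exp (K * r) * ‖h‖ * (hk r (y - z) * gr u s z) := by
        refine integral_mono_of_nonneg (ae_of_all _ fun z => abs_nonneg _)
          (hint.const_mul _) (ae_of_all _ fun z => ?_)
        have h1 := ((hKER N K (pot f u) hPt).2.1 s (s + r) hst y z).2
        have h2 := Pool.Agent.H3.RF.gk_nonneg hKER hPt hst y z
        rw [e1] at h1
        change |gk (pot f u) (s + r) y s z * dx u h s z| ≤ _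
        rw [abs_mul, abs_of_nonneg h2]
        calc gk (pot f u) (s + r) y s z * |dx u h s z|
            ≤ (Real.exp (K * r) * hk r (y - z)) * (gr u s z * ‖h‖) :=
              mul_le_mul h1 (abs_dx_le h s z) (abs_nonneg _) (h2.trans h1)
          _ = _ := by ring
    _ = _ := by rw [integral_const_mul]; ring

/-- bound of the second derivative by the average at an earlier time -/
theorem hess_le_avg (hIEL : T_IEL) (hLINU : T_LINU) (hK : 0 < K) : ∃ C ≥ 1,
    ∀ u : ℝ → E N → ℝ, Stg f K U u → (∃ CL, ∀ t ≥ 1, ∀ x, gr u t x ≤ CL) → ∀ s r, 1 ≤ s →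
      0 < r → r ≤ 1 → ∀ y,
      ‖fderiv ℝ (fun z => fderiv ℝ (u (s + r)) z) y‖ ≤
        C / √r * ∫ z, hk (2 * r) (y - z) * gr u s z := by
  obtain ⟨C, hC1, hC⟩ := hIEL N K hK
  refine ⟨C, hC1, fun u hS hb s r hs hr hr1 y => ?_⟩
  obtain ⟨CL, hCL⟩ := hb
  obtain ⟨hPt, -, hLin, -⟩ := hLINU N f K U u hS.reac hS.lip hS.sol
  have hs0 : 0 < s := by linarith
  have hst : s < s + r := by linarith
  have hsr : 0 < s + r := by linarith
  have e1 : s + r - s = r := by ring
  have hGb' : ∀ y, |gr u s y| ≤ CL := fun y => by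
    rw [abs_of_nonneg (gr_nonneg _ _)]; exact hCL s hs y
  have hGm : Measurable (gr u s) := (cont_gr hS hs0).measurable
  have hint : Integrable (fun z => hk (2 * r) (y - z) * gr u s z) :=
    Pool.Agent.H29.TF.integrable_hk_mul (by linarith) hGm.aestronglyMeasurable (C := CL) hGb' y
  have h0 : 0 ≤ ∫ z, hk (2 * r) (y - z) * gr u s z :=
    integral_nonneg fun z => mul_nonneg (Pool.Agent.H29.TF.hk_nonneg (by linarith) _)
      (gr_nonneg _ _)
  have hC0 : 0 ≤ C / √r := by positivity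
  have hdiff : DifferentiableAt ℝ (fun z => fderiv ℝ (u (s + r)) z) y :=
    ((hS.sol.sol.c2 (s + r) hsr).fderiv_right (m := 1) (by norm_num)).differentiable
      (by norm_num) y
  have key : ∀ h v : E N, |fderiv ℝ (fun z => fderiv ℝ (u (s + r)) z) y v h| ≤
      C / √r * (∫ z, hk (2 * r) (y - z) * gr u s z) * ‖v‖ * ‖h‖ := by
    intro h v
    have hL := (hLin s (s + r) hs0 hst).1 h
    have h1 := ((hC (pot f u) (dx u h) s (s + r) hPt hL).1 s (s + r) le_rfl hst le_rfl
      (by linarith)).2 y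
    rw [e1] at h1
    have h2 : fderiv ℝ (dx u h (s + r)) y v =
        fderiv ℝ (fun z => fderiv ℝ (u (s + r)) z) y v h := by
      have h3 : HasFDerivAt (fun z => fderiv ℝ (u (s + r)) z h)
          ((ContinuousLinearMap.apply ℝ ℝ h).comp
            (fderiv ℝ (fun z => fderiv ℝ (u (s + r)) z) y)) y :=
        (ContinuousLinearMap.apply ℝ ℝ h).hasFDerivAt.comp y hdiff.hasFDerivAt
      have h4 : fderiv ℝ (dx u h (s + r)) y = _ := h3.fderiv
      rw [h4]
      rfl
    rw [← h2]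
    have h5 := (fderiv ℝ (dx u h (s + r)) y).le_opNorm v
    rw [Real.norm_eq_abs] at h5
    have h6 : ∫ z, hk (2 * r) (y - z) * |dx u h s z| ≤
        ‖h‖ * ∫ z, hk (2 * r) (y - z) * gr u s z := by
      rw [← integral_const_mul]
      refine integral_mono_of_nonneg (ae_of_all _ fun z =>
        mul_nonneg (Pool.Agent.H29.TF.hk_nonneg (by linarith) _) (abs_nonneg _))
        (hint.const_mul _) (ae_of_all _ fun z => ?_)
      calc hk (2 * r) (y - z) * |dx u h s z| ≤ hk (2 * r) (y - z) * (gr u s z * ‖h‖) :=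
            mul_le_mul_of_nonneg_left (abs_dx_le h s z)
              (Pool.Agent.H29.TF.hk_nonneg (by linarith) _)
        _ = _ := by ring
    calc |fderiv ℝ (dx u h (s + r)) y v| ≤ ‖fderiv ℝ (dx u h (s + r)) y‖ * ‖v‖ := h5
      _ ≤ (C / √r * (‖h‖ * ∫ z, hk (2 * r) (y - z) * gr u s z)) * ‖v‖ :=
          mul_le_mul_of_nonneg_right (h1.trans (mul_le_mul_of_nonneg_left h6 hC0)) (norm_nonneg _)
      _ = _ := by ring
  refine ContinuousLinearMap.opNorm_le_bound _ (by positivity) fun v => ?_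
  refine ContinuousLinearMap.opNorm_le_bound _ (by positivity) fun h => ?_
  rw [Real.norm_eq_abs]
  exact key h v

end

/-- module PAST -/
theorem PAST (hKER : T_KER) (hKREP : T_KREP) (hIEL : T_IEL) (hGEOK : T_GEOK) (hLINU : T_LINU)
    (hNSUP : T_NSUP) : T_PAST := by
  intro N f K cc C0 C9 η0 U u hS hc hF S hS0 ρ hρ
  obtain ⟨hPt, -, -, CL, hCLall⟩ := hLINU N f K U u hS.reac hS.lip hS.sol
  have hCL : ∀ t ≥ 1, ∀ x, gr u t x ≤ CL := fun t ht x => (hCLall t ht x).1
  have hK := hPt.K0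
  have hC0 := hF.hC0
  obtain ⟨C, hC1, hH⟩ := hess_le_avg (N := N) (f := f) (U := U) hIEL hLINU hK
  obtain ⟨r, hr, hr1, hr4⟩ : ∃ r : ℝ, 0 < r ∧ r ≤ 1 ∧ r ≤ S / 4 :=
    ⟨min 1 (S / 4), lt_min one_pos (by positivity), min_le_left _ _, min_le_right _ _⟩
  obtain ⟨η1, hη1, T1, hT1, h1⟩ := stepA hKER hKREP hGEOK hLINU hNSUP hS hc hF
    (show 0 < S + S / 2 by positivity)
  obtain ⟨η2, hη2, T2, hT2, h2⟩ := stepA hKER hKREP hGEOK hLINU hNSUP hS hc hF
    (show 0 < S + r by positivity)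
  obtain ⟨η3, hη3, T3, hT3, h3⟩ := stepA hKER hKREP hGEOK hLINU hNSUP hS hc hF hS0
  obtain ⟨A1, hA1⟩ : ∃ A1, A1 = ((S + S / 2) / (S / 2)) ^ ((Module.finrank ℝ (E N) : ℝ) / 2) *
    Real.exp (ρ ^ 2 / (2 * (S + S / 2))) := ⟨_, rfl⟩
  obtain ⟨A2, hA2⟩ : ∃ A2, A2 = ((S + r) / (2 * r)) ^ ((Module.finrank ℝ (E N) : ℝ) / 2) *
    Real.exp (ρ ^ 2 / (2 * (S + r))) := ⟨_, rfl⟩
  have hA1p : 0 < A1 := by rw [hA1]; positivity
  have hA2p : 0 < A2 := by rw [hA2]; positivity
  obtain ⟨D1, hD1⟩ : ∃ D1, D1 = Real.exp (K * (S / 2)) * (A1 *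
    (3 * C0 * Real.exp (K * (S + S / 2)))) := ⟨_, rfl⟩
  obtain ⟨D2, hD2⟩ : ∃ D2, D2 = C / √r * (A2 * (3 * C0 * Real.exp (K * (S + r)))) := ⟨_, rfl⟩
  obtain ⟨D3, hD3⟩ : ∃ D3, D3 = 3 * C0 * Real.exp (K * S) := ⟨_, rfl⟩
  have hD1p : 0 < D1 := by rw [hD1]; positivity
  have hD2p : 0 < D2 := by rw [hD2]; positivity
  have hD3p : 0 < D3 := by rw [hD3]; positivity
  refine ⟨D1 + D2 + D3 + 1, by linarith, min η1 (min η2 η3), lt_min hη1 (lt_min hη2 hη3),
    T1 + T2 + T3 + (S + S / 2 + 1) + (S + r + 1), by positivity, fun t ht x e hd hx y hy => ?_⟩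
  have ht0 : 0 < t := by
    have : 0 < T1 + T2 + T3 + (S + S / 2 + 1) + (S + r + 1) := by positivity
    linarith
  have m1 : min η1 (min η2 η3) ≤ η1 := min_le_left _ _
  have m2 : min η1 (min η2 η3) ≤ η2 := (min_le_right _ _).trans (min_le_left _ _)
  have m3 : min η1 (min η2 η3) ≤ η3 := (min_le_right _ _).trans (min_le_right _ _)
  have hS1 : 1 ≤ t - (S + S / 2) := by linarith
  have hS2 : 1 ≤ t - (S + r) := by linarith
  obtain ⟨hp0, b1⟩ := h1 t (by linarith) x e (NDir.mono m1 hd)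
    (hx.trans (mul_le_mul_of_nonneg_right m1 ht0.le))
  obtain ⟨-, b2⟩ := h2 t (by linarith) x e (NDir.mono m2 hd)
    (hx.trans (mul_le_mul_of_nonneg_right m2 ht0.le))
  obtain ⟨-, b3⟩ := h3 t (by linarith) x e (NDir.mono m3 hd)
    (hx.trans (mul_le_mul_of_nonneg_right m3 ht0.le))
  have c1 : gr u (t - S) y ≤ D1 * -dx u e t x := by
    have g1 := gr_le_avg hKER hKREP hLINU hS hCL hS1 (show 0 < S / 2 by positivity) y
    have e1 : t - (S + S / 2) + S / 2 = t - S := by ring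
    rw [e1] at g1
    have g2 := avg_comp (s := t - (S + S / 2)) (CL := CL) hS (by linarith) (hCL _ hS1)
      (show 0 < S / 2 by positivity) (show 2 * (S / 2) ≤ S + S / 2 by linarith) hy
    rw [← hA1] at g2
    calc gr u (t - S) y ≤ _ := g1
      _ ≤ Real.exp (K * (S / 2)) * (A1 * (3 * C0 * Real.exp (K * (S + S / 2)) * -dx u e t x)) :=
          mul_le_mul_of_nonneg_left (g2.trans (mul_le_mul_of_nonneg_left b1 hA1p.le))
            (Real.exp_pos _).le
      _ = _ := by rw [hD1]; ring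
  have c2 : ‖fderiv ℝ (fun z => fderiv ℝ (u (t - S)) z) y‖ ≤ D2 * -dx u e t x := by
    have g1 := hH u hS ⟨CL, hCL⟩ (t - (S + r)) r hS2 hr hr1 y
    have e1 : t - (S + r) + r = t - S := by ring
    rw [e1] at g1
    have g2 := avg_comp (s := t - (S + r)) (CL := CL) hS (by linarith) (hCL _ hS2)
      (show 0 < 2 * r by positivity) (show 2 * (2 * r) ≤ S + r by linarith) hy
    rw [← hA2] at g2
    calc ‖fderiv ℝ (fun z => fderiv ℝ (u (t - S)) z) y‖ ≤ _ := g1
      _ ≤ C / √r * (A2 * (3 * C0 * Real.exp (K * (S + r)) * -dx u e t x)) :=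
          mul_le_mul_of_nonneg_left (g2.trans (mul_le_mul_of_nonneg_left b2 hA2p.le))
            (by positivity)
      _ = _ := by rw [hD2]; ring
  rw [← hD3] at b3
  constructor
  · nlinarith
  · nlinarith

end Pool.Agent.H37.RF
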